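import Pool.Agent.Lib.MP_b8e197_co.SL.Main

/-!
A lower bound for the number of 1324-avoiding permutations:
`Av_n(1324) ≥ (21/2)^n` for all large `n`, hence the Stanley-Wilf limit of 1324 is at least 10.5.
-/

namespace Pool.Agent.Results.MP_b8e197_co.LowerBound

open Filter Topology

/-- The permutation `π` (one-line notation `π 0, π 1, ...`) avoids the pattern 1324. -/
def Avoids1324 {n : ℕ} (π : Equiv.Perm (Fin n)) : Prop :=
  ∀ i j k l : Fin n, i < j → j < k → k < l → ¬ (π i < π k ∧ π k < π j ∧ π j < π l)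

/-- The number of 1324-avoiding permutations of `n` points. -/
noncomputable def avCount (n : ℕ) : ℕ := Nat.card {π : Equiv.Perm (Fin n) // Avoids1324 π}

/-- The number of 1324-avoiders of length `n` is at least `(21/2)^n` for all large `n`, and
therefore the Stanley-Wilf limit of 1324 is at least `21/2 = 10.5`. -/
theorem result : (∀ᶠ n : ℕ in atTop, (21 / 2 : ℝ) ^ n ≤ (avCount n : ℝ)) ∧
    ∀ L : ℝ, Tendsto (fun n : ℕ => (avCount n : ℝ) ^ (1 / (n : ℝ))) atTop (𝓝 L) →
      21 / 2 ≤ L := by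
  have h1 : ∀ᶠ n : ℕ in atTop, (21 / 2 : ℝ) ^ n ≤ (avCount n : ℝ) := by
    filter_upwards [SL1324.main_lower] with n hn
    have h2 : SL1324.cntAv n ≤ avCount n := SL1324.perm n
    have h3 : (SL1324.cntAv n : ℝ) ≤ (avCount n : ℝ) := by exact_mod_cast h2
    exact hn.trans h3
  refine ⟨h1, ?_⟩
  intro L hL
  refine ge_of_tendsto hL ?_
  filter_upwards [h1, eventually_ge_atTop 1] with n hn hn1
  have hn0 : (0 : ℝ) < n := by exact_mod_cast hn1
  calc (21 / 2 : ℝ) = (((21 / 2 : ℝ)) ^ n) ^ (1 / (n : ℝ)) := by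
        rw [← Real.rpow_natCast, ← Real.rpow_mul (by norm_num), mul_one_div_cancel hn0.ne',
          Real.rpow_one]
    _ ≤ (avCount n : ℝ) ^ (1 / (n : ℝ)) :=
        Real.rpow_le_rpow (by positivity) hn (by positivity)

end Pool.Agent.Results.MP_b8e197_co.LowerBound
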