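import Pool.Agent.Lib.MP_b8e197_co.H98.Inst

/-!
An unconditional upper bound for the number of 1324-avoiding permutations:
`Av_n(1324) ≤ (257/20)^n` for every `n`, hence the Stanley-Wilf limit of 1324 is at most 12.85.
-/

namespace Pool.Agent.Results.MP_b8e197_co.UpperBound

open Filter Topology

/-- The permutation `π` (one-line notation `π 0, π 1, ...`) avoids the pattern 1324. -/
def Avoids1324 {n : ℕ} (π : Equiv.Perm (Fin n)) : Prop :=
  ∀ i j k l : Fin n, i < j → j < k → k < l → ¬ (π i < π k ∧ π k < π j ∧ π j < π l)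

/-- The number of 1324-avoiding permutations of `n` points. -/
noncomputable def avCount (n : ℕ) : ℕ := Nat.card {π : Equiv.Perm (Fin n) // Avoids1324 π}

/-- The number of 1324-avoiders of length `n` is at most `(257/20)^n`, and therefore the
Stanley-Wilf limit of 1324 is at most `257/20 = 12.85`. -/
theorem result : (∀ n : ℕ, (avCount n : ℝ) ≤ (257 / 20 : ℝ) ^ n) ∧
    ∀ L : ℝ, Tendsto (fun n : ℕ => (avCount n : ℝ) ^ (1 / (n : ℝ))) atTop (𝓝 L) →
      L ≤ 257 / 20 := by
  have h1 : ∀ n : ℕ, (avCount n : ℝ) ≤ (257 / 20 : ℝ) ^ n := fun n => H98Av.av_bound n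
  refine ⟨h1, ?_⟩
  intro L hL
  refine le_of_tendsto hL ?_
  filter_upwards [eventually_ge_atTop 1] with n hn
  have hn0 : (0 : ℝ) < n := by exact_mod_cast hn
  calc (avCount n : ℝ) ^ (1 / (n : ℝ)) ≤ (((257 / 20 : ℝ)) ^ n) ^ (1 / (n : ℝ)) :=
        Real.rpow_le_rpow (by positivity) (h1 n) (by positivity)
    _ = 257 / 20 := by
        rw [← Real.rpow_natCast, ← Real.rpow_mul (by norm_num), mul_one_div_cancel hn0.ne',
          Real.rpow_one]

end Pool.Agent.Results.MP_b8e197_co.UpperBound
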